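import Pool.Agent.W96.CL.Stm
set_option autoImplicit false

open Polynomial Filter Topology MeasureTheory

namespace W96CL

namespace Bnd

lemma norm_sinh_le (w : ℂ) (hw : |w.im| ≤ Real.pi / 4) : ‖Complex.sinh w‖ ≤ ‖Complex.cosh w‖ := by
  have h1 : Complex.sinh w = Complex.exp (-w) / 2 * (Complex.exp (2 * w) - 1) := by
    have : Complex.exp (2 * w) = Complex.exp w * Complex.exp w := by
      rw [← Complex.exp_add]; ring_nf
    rw [Complex.sinh, this]
    have h2 : Complex.exp (-w) * Complex.exp w = 1 := by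
      rw [← Complex.exp_add]; simp
    linear_combination (-(Complex.exp w) / 2) * h2
  have h2 : Complex.cosh w = Complex.exp (-w) / 2 * (Complex.exp (2 * w) + 1) := by
    have : Complex.exp (2 * w) = Complex.exp w * Complex.exp w := by
      rw [← Complex.exp_add]; ring_nf
    rw [Complex.cosh, this]
    have h2 : Complex.exp (-w) * Complex.exp w = 1 := by
      rw [← Complex.exp_add]; simp
    linear_combination (-(Complex.exp w) / 2) * h2
  rw [h1, h2, norm_mul, norm_mul]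
  apply mul_le_mul_of_nonneg_left _ (norm_nonneg _)
  have hre : 0 ≤ (Complex.exp (2 * w)).re := by
    rw [Complex.exp_re]
    apply mul_nonneg (Real.exp_pos _).le
    apply Real.cos_nonneg_of_mem_Icc
    have h3 : (2 * w).im = 2 * w.im := by simp
    rw [h3]
    have := abs_le.1 hw
    constructor <;> linarith [this.1, this.2]
  have h3 : ‖Complex.exp (2 * w) - 1‖ ^ 2 ≤ ‖Complex.exp (2 * w) + 1‖ ^ 2 := by
    rw [← Complex.normSq_eq_norm_sq, ← Complex.normSq_eq_norm_sq, Complex.normSq_apply,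
      Complex.normSq_apply]
    simp only [Complex.sub_re, Complex.add_re, Complex.sub_im, Complex.add_im, Complex.one_re,
      Complex.one_im]
    nlinarith
  exact le_of_sq_le_sq h3 (norm_nonneg _)

lemma norm_tanh_le (w : ℂ) (hw : |w.im| ≤ Real.pi / 4) : ‖Complex.tanh w‖ ≤ 1 := by
  rw [Complex.tanh_eq_sinh_div_cosh, norm_div]
  exact div_le_one_of_le₀ (norm_sinh_le w hw) (norm_nonneg _)

lemma kc_re_nonneg (z : ℂ) (hz : |z.im| < Real.pi / 3) : 0 ≤ (kc z).re := by
  unfold kc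
  have h1 : (3 / (4 * (Real.pi : ℂ) * Complex.cosh (3 * z / 2))) =
      ((3 / (4 * Real.pi) : ℝ) : ℂ) * (Complex.cosh (3 * z / 2))⁻¹ := by
    push_cast
    rw [div_eq_mul_inv, mul_inv, div_eq_mul_inv]
    ring
  rw [h1, Complex.re_ofReal_mul]
  apply mul_nonneg
  · positivity
  rw [Complex.inv_re]
  apply div_nonneg _ (Complex.normSq_nonneg _)
  have h2 : Complex.cosh (3 * z / 2) = Complex.cosh ((3 * z.re / 2 : ℝ) + (3 * z.im / 2 : ℝ) * Complex.I) := by
    congr 1
    apply Complex.ext <;> simp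
  rw [h2, Complex.cosh_add, Complex.cosh_mul_I, Complex.sinh_mul_I]
  have h3 : (Complex.cosh ((3 * z.re / 2 : ℝ) : ℂ) * Complex.cos ((3 * z.im / 2 : ℝ) : ℂ) +
      Complex.sinh ((3 * z.re / 2 : ℝ) : ℂ) * (Complex.sin ((3 * z.im / 2 : ℝ) : ℂ) * Complex.I)).re =
      Real.cosh (3 * z.re / 2) * Real.cos (3 * z.im / 2) := by
    rw [← Complex.ofReal_cosh, ← Complex.ofReal_cos, ← Complex.ofReal_sinh, ← Complex.ofReal_sin]
    simp only [Complex.add_re, Complex.mul_re, Complex.mul_im, Complex.ofReal_re,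
      Complex.ofReal_im, Complex.I_re, Complex.I_im]
    ring
  rw [h3]
  apply mul_nonneg (Real.cosh_pos _).le
  apply Real.cos_nonneg_of_mem_Icc
  have := abs_lt.1 hz
  constructor <;> linarith [this.1, this.2]

lemma strip_const : Strip (fun _ => ((Real.exp 1 : ℝ) : ℂ)) (Real.exp 1) where
  L0 := Real.exp_pos _
  an := ⟨Real.pi / 3 + 1, by linarith, fun z _ => ⟨differentiableAt_const _, by
    exact_mod_cast (Real.exp_pos 1).ne'⟩⟩
  conj := fun z _ => by simp only [Complex.conj_ofReal]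
  pos := fun u => by
    show 0 < ((Real.exp 1 : ℝ) : ℂ).re
    rw [Complex.ofReal_re]
    exact Real.exp_pos 1
  lim := ⟨0, 1, one_pos, fun z _ => by simp⟩

/-- integral of the real part of the kernel -/
lemma kc_int (hst : S_strip) (z : ℂ) (hz : |z.im| < Real.pi / 3) :
    Integrable (fun v : ℝ => (kc (z - v)).re) ∧ ∫ v : ℝ, (kc (z - v)).re = 1 / 2 := by
  obtain ⟨h1, h2⟩ := hst _ _ strip_const z hz
  have hlog : ((Real.log (‖((Real.exp 1 : ℝ) : ℂ)‖ ^ 2) : ℝ) : ℂ) = 2 := by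
    rw [Complex.norm_real, Real.norm_of_nonneg (Real.exp_pos 1).le, Real.log_pow, Real.log_exp]
    push_cast; ring
  simp only [hlog] at h1 h2
  have h3 : Integrable (fun v : ℝ => (kc (z - v) * 2).re) := h1.re
  have h4 : (fun v : ℝ => (kc (z - v) * 2).re) = fun v : ℝ => (kc (z - v)).re * 2 := by
    funext v
    simp
  rw [h4] at h3
  have h5 : Integrable (fun v : ℝ => (kc (z - v)).re) := by
    have := h3.mul_const (1 / 2)
    refine this.congr (Filter.Eventually.of_forall fun v => ?_)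
    simp only
    ring
  refine ⟨h5, ?_⟩
  have h6 : ‖((Real.exp 1 : ℝ) : ℂ)‖ = ‖Complex.exp (∫ v : ℝ, kc (z - v) * 2)‖ := by rw [h2]
  rw [Complex.norm_exp, Complex.norm_real, Real.norm_of_nonneg (Real.exp_pos 1).le] at h6
  have h7 := Real.exp_injective h6
  have h8 : (∫ v : ℝ, kc (z - v) * 2).re = ∫ v : ℝ, (kc (z - v) * 2).re :=
    (integral_re h1).symm
  rw [h8, h4, integral_mul_const] at h7
  linarith

lemma strip_bound (hst : S_strip) (F : ℂ → ℂ) (L : ℝ) (hF : Strip F L) (M : ℝ)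
    (hM : ∀ v : ℝ, ‖F (v + Real.pi / 3 * Complex.I)‖ ^ 2 ≤ M) (z : ℂ)
    (hz : |z.im| < Real.pi / 3) : ‖F z‖ ≤ Real.sqrt M := by
  obtain ⟨h1, h2⟩ := hst F L hF z hz
  obtain ⟨a, ha, haF⟩ := hF.an
  have hne : ∀ v : ℝ, F (v + Real.pi / 3 * Complex.I) ≠ 0 := by
    intro v
    apply (haF _ _).2
    have : ((v : ℂ) + Real.pi / 3 * Complex.I).im = Real.pi / 3 := by simp
    rw [this, abs_of_pos (by positivity)]
    exact ha
  have hpos : ∀ v : ℝ, 0 < ‖F (v + Real.pi / 3 * Complex.I)‖ ^ 2 := fun v => by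
    have := norm_pos_iff.2 (hne v)
    positivity
  have hM0 : 0 < M := lt_of_lt_of_le (hpos 0) (hM 0)
  obtain ⟨k1, k2⟩ := kc_int hst z hz
  rw [h2, Complex.norm_exp]
  have h8 : (∫ v : ℝ, kc (z - v) * (Real.log (‖F (v + Real.pi / 3 * Complex.I)‖ ^ 2) : ℂ)).re =
      ∫ v : ℝ, (kc (z - v) * (Real.log (‖F (v + Real.pi / 3 * Complex.I)‖ ^ 2) : ℂ)).re :=
    (integral_re h1).symm
  rw [h8]
  have h9 : ∫ v : ℝ, (kc (z - v) * (Real.log (‖F (v + Real.pi / 3 * Complex.I)‖ ^ 2) : ℂ)).re ≤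
      ∫ v : ℝ, (kc (z - v)).re * Real.log M := by
    apply integral_mono h1.re (k1.mul_const _)
    intro v
    show (kc (z - ↑v) * (Real.log (‖F (v + Real.pi / 3 * Complex.I)‖ ^ 2) : ℂ)).re ≤
      (kc (z - ↑v)).re * Real.log M
    rw [Complex.re_mul_ofReal]
    apply mul_le_mul_of_nonneg_left
    · exact Real.log_le_log (hpos v) (hM v)
    · apply kc_re_nonneg
      have : (z - (v : ℂ)).im = z.im := by simp
      rw [this]; exact hz
  rw [integral_mul_const, k2] at h9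
  calc Real.exp _ ≤ Real.exp (1 / 2 * Real.log M) := Real.exp_le_exp.2 h9
    _ = Real.sqrt M := by
      rw [Real.sqrt_eq_rpow, Real.rpow_def_of_pos hM0]
      congr 1; ring

end Bnd

open Bnd in
theorem cl_bound (hst : S_strip) (hh : S_hfac) (hr : S_rfac) : S_bound := by
  intro n θ t Q z0 hSQ
  obtain ⟨h, hh1, hh2, hh3⟩ := hh n θ t Q z0 hSQ
  obtain ⟨ρ, hr1, hr2, hr3⟩ := hr n θ t Q z0 hSQ
  have hpi := Real.pi_pos
  -- bounded
  obtain ⟨K, c, hc, hK⟩ := hh1.lim
  set g : ℝ → ℝ := fun v => ‖h (v + Real.pi / 3 * Complex.I)‖ ^ 2 with hg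
  have hbdd : BddAbove (Set.range g) := by
    refine ⟨(K + 2) ^ 2, ?_⟩
    rintro _ ⟨v, rfl⟩
    simp only [hg]
    have him : ((v : ℂ) + Real.pi / 3 * Complex.I).im = Real.pi / 3 := by simp
    have h1 := hK (v + Real.pi / 3 * Complex.I) (by
      rw [him, abs_of_pos (by positivity)])
    have hKnn : 0 ≤ K := by
      have h2 := (norm_nonneg _).trans h1
      by_contra hcon
      push Not at hcon
      have := mul_neg_of_neg_of_pos hcon (Real.exp_pos (-(c * |((v : ℂ) + Real.pi / 3 * Complex.I).re|)))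
      linarith
    have h2 : K * Real.exp (-(c * |((v : ℂ) + Real.pi / 3 * Complex.I).re|)) ≤ K * 1 := by
      apply mul_le_mul_of_nonneg_left _ hKnn
      apply Real.exp_le_one_iff.2
      have := mul_nonneg hc.le (abs_nonneg ((v : ℂ) + Real.pi / 3 * Complex.I).re)
      linarith
    have h3 : ‖h (v + Real.pi / 3 * Complex.I)‖ ≤ K + 2 := by
      have h4 := norm_sub_norm_le (h (v + Real.pi / 3 * Complex.I)) ((2 : ℝ) : ℂ)
      have h5 : ‖((2 : ℝ) : ℂ)‖ = 2 := by simp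
      rw [h5] at h4
      linarith
    exact pow_le_pow_left₀ (norm_nonneg _) h3 2
  set A : ℝ := ⨆ v, g v with hA
  have hgA : ∀ v, g v ≤ A := fun v => le_ciSup hbdd v
  have hg1 : ∀ v, 1 ≤ g v := fun v => by
    simp only [hg]
    rw [hh3]
    nlinarith [sq_nonneg (rC n θ Q v).re]
  have hA1 : 1 ≤ A := (hg1 0).trans (hgA 0)
  have hhz : ∀ z : ℂ, |z.im| < Real.pi / 3 → ‖h z‖ ≤ Real.sqrt A := fun z hz =>
    strip_bound hst h 2 hh1 A hgA z hz
  have hsz : ∀ z : ℂ, |z.im| < Real.pi / 3 → ‖sC n θ t z‖ ≤ Real.sqrt A := by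
    intro z hz
    rw [hh2 z hz.le, norm_neg, norm_mul, norm_mul]
    have hb := abs_lt.1 hz
    have t1 : ‖Complex.tanh (3 * (z - z0) / 4)‖ ≤ 1 := by
      apply norm_tanh_le
      have : (3 * (z - (z0 : ℂ)) / 4).im = 3 * z.im / 4 := by simp
      rw [this, abs_le]
      constructor <;> linarith [hb.1, hb.2]
    have t2 : ‖Complex.tanh (3 * (z + z0) / 4)‖ ≤ 1 := by
      apply norm_tanh_le
      have : (3 * (z + (z0 : ℂ)) / 4).im = 3 * z.im / 4 := by simp
      rw [this, abs_le]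
      constructor <;> linarith [hb.1, hb.2]
    calc _ ≤ 1 * 1 * ‖h z‖ := by gcongr
      _ ≤ _ := by rw [one_mul, one_mul]; exact hhz z hz
  -- rho
  have hs_real : ∀ v : ℝ, 1 - (sC n θ t v).re ≤ 1 + Real.sqrt A := by
    intro v
    have h1 := hsz v (by simp; positivity)
    have h2 := Complex.abs_re_le_norm (sC n θ t v)
    have h3 := neg_abs_le (sC n θ t v).re
    linarith
  have hρz : ∀ z : ℂ, |z.im| < Real.pi / 3 → ‖ρ z‖ ≤ Real.sqrt (1 + Real.sqrt A) := fun z hz =>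
    strip_bound hst ρ _ hr1 (1 + Real.sqrt A) (fun v => by rw [hr3]; exact hs_real v) z hz
  -- RR on the reals
  have hcos0 : 0 < Real.cos (3 * θ / 2) := by
    apply Real.cos_pos_of_mem_Ioo
    have h0 := hSQ.th0
    have h1 := hSQ.th1
    constructor <;> linarith
  have hcos1 : Real.cos (3 * θ / 2) ≤ 1 := Real.cos_le_one _
  have hRR : ∀ u : ℝ, RR θ (u : ℂ) = ((Rr θ u : ℝ) : ℂ) := by
    intro u
    unfold RR Rr
    push_cast
    rfl
  have hRr0 : ∀ u : ℝ, 0 ≤ Rr θ u := by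
    intro u
    unfold Rr
    have := Real.one_le_cosh (3 * u / 2)
    apply div_nonneg <;> linarith
  have hRr1 : ∀ u : ℝ, Rr θ u ≤ 1 := by
    intro u
    unfold Rr
    have := Real.one_le_cosh (3 * u / 2)
    apply div_le_one_of_le₀ <;> linarith
  have htanh : ∀ u : ℝ, Complex.tanh (3 * (u : ℂ) / 4) = ((Real.tanh (3 * u / 4) : ℝ) : ℂ) := by
    intro u
    push_cast
    rfl
  have hrform : ∀ u : ℝ, (rC n θ Q u).re = Real.tanh (3 * u / 4) * Rr θ u ^ n * (ρ u).re := by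
    intro u
    rw [hr2 u (by simp; positivity), hRR, htanh, ← Complex.ofReal_pow, ← Complex.ofReal_mul,
      Complex.re_ofReal_mul]
  have habs_tanh : ∀ u : ℝ, |Real.tanh u| ≤ 1 := by
    intro u
    have := norm_tanh_le (u : ℂ) (by simp; positivity)
    rwa [← Complex.ofReal_tanh, Complex.norm_real, Real.norm_eq_abs] at this
  have hr_le : ∀ u : ℝ, |(rC n θ Q u).re| ≤ ‖ρ u‖ := by
    intro u
    rw [hrform, abs_mul, abs_mul]
    have h1 := habs_tanh (3 * u / 4)
    have h2 : |Rr θ u ^ n| ≤ 1 := by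
      rw [abs_of_nonneg (pow_nonneg (hRr0 u) n)]
      exact pow_le_one₀ (hRr0 u) (hRr1 u)
    have h3 := Complex.abs_re_le_norm (ρ u)
    calc _ ≤ 1 * 1 * |(ρ u).re| := by gcongr
      _ ≤ _ := by rw [one_mul, one_mul]; exact h3
  have hA2 : A ≤ 2 + Real.sqrt A := by
    apply ciSup_le
    intro v
    simp only [hg]
    rw [hh3]
    have h1 := hr_le v
    have h2 := hρz v (by simp; positivity)
    have h3 : |(rC n θ Q v).re| ^ 2 ≤ Real.sqrt (1 + Real.sqrt A) ^ 2 :=
      pow_le_pow_left₀ (abs_nonneg _) (h1.trans h2) 2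
    rw [sq_abs, Real.sq_sqrt (by positivity)] at h3
    linarith
  have hw : Real.sqrt A ≤ 2 := by
    have h1 := Real.sq_sqrt (show (0 : ℝ) ≤ A by linarith)
    have h2 := Real.sqrt_nonneg A
    nlinarith
  refine ⟨fun z hz => (hsz z hz).trans hw, ?_⟩
  intro u hu
  rw [hrform]
  have h1 : 0 ≤ Real.tanh (3 * u / 4) := by
    rw [Real.tanh_eq_sinh_div_cosh]
    apply div_nonneg _ (Real.cosh_pos _).le
    exact Real.sinh_nonneg_iff.2 (by positivity)
  have h2 : 0 ≤ Real.tanh (3 * u / 4) * Rr θ u ^ n := mul_nonneg h1 (pow_nonneg (hRr0 u) n)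
  have h3 : (ρ u).re ≤ Real.sqrt 3 := by
    calc (ρ u).re ≤ ‖ρ u‖ := Complex.re_le_norm _
      _ ≤ Real.sqrt (1 + Real.sqrt A) := hρz u (by simp; positivity)
      _ ≤ Real.sqrt 3 := Real.sqrt_le_sqrt (by linarith)
  calc _ ≤ Real.tanh (3 * u / 4) * Rr θ u ^ n * Real.sqrt 3 :=
        mul_le_mul_of_nonneg_left h3 h2
    _ = _ := by ring

end W96CL
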